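import Mathlib

set_option autoImplicit false

/-!
# A faithful cover that does not extend across a 5-circuit with one weight-2 edge

Finite loopless multigraphs, circuits (connected 2-regular subgraphs, given by their edge sets),
faithful circuit covers.  `result`: a simple cubic graph with 18 vertices, an eulerian
`{1,2}`-weight `w`, an edge `e0` of weight 2 on a 5-circuit whose other four edges have weight 1,
such that `(G - e0, w)` has a faithful circuit cover and `(G, w)` has none.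
-/

namespace Pool.Agent.Results.MP_6dc06d_co.EighteenVertices

open Finset

/-- A finite loopless graph, parallel edges allowed: vertex type `V`, edge type `E`, the two
ends of every edge. -/
structure MGraph (V E : Type) where
  fst : E → V
  snd : E → V
  loopless : ∀ e, fst e ≠ snd e

namespace MGraph

variable {V E : Type}

/-- The vertex `v` is an end of the edge `e`. -/
def Inc (G : MGraph V E) (v : V) (e : E) : Prop := G.fst e = v ∨ G.snd e = v

instance [DecidableEq V] (G : MGraph V E) (v : V) : DecidablePred (G.Inc v) :=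
  fun e => inferInstanceAs (Decidable (G.fst e = v ∨ G.snd e = v))

instance [DecidableEq V] (G : MGraph V E) (v : V) (e : E) : Decidable (G.Inc v e) :=
  inferInstanceAs (Decidable (G.fst e = v ∨ G.snd e = v))

/-- Every vertex has degree 3. -/
def Cubic [Fintype E] [DecidableEq V] (G : MGraph V E) : Prop :=
  ∀ v, (univ.filter (G.Inc v)).card = 3

/-- No two edges have the same pair of ends. -/
def Simple (G : MGraph V E) : Prop := ∀ e f, (∀ v, G.Inc v e ↔ G.Inc v f) → e = f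

/-- The set `C` of edges is the edge set of a circuit, that is of a connected 2-regular subgraph:
`C` is nonempty, every vertex is an end of exactly 0 or exactly 2 edges of `C`, and any two
vertices met by `C` are joined by a walk whose edges belong to `C`. -/
def IsCircuit [DecidableEq V] (G : MGraph V E) (C : Finset E) : Prop :=
  C.Nonempty ∧ (∀ v, (C.filter (G.Inc v)).card = 0 ∨ (C.filter (G.Inc v)).card = 2) ∧
    ∀ u v, (∃ e ∈ C, G.Inc u e) → (∃ e ∈ C, G.Inc v e) →
      Relation.ReflTransGen (fun x y => ∃ e ∈ C, G.Inc x e ∧ G.Inc y e) u v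

/-- The weight `w` is eulerian: the total weight of every edge cut is even. -/
def Eulerian [Fintype E] [DecidableEq V] (G : MGraph V E) (w : E → ℕ) : Prop :=
  ∀ S : Finset V, Even (∑ e ∈ univ.filter (fun e => ¬ (G.fst e ∈ S ↔ G.snd e ∈ S)), w e)

/-- `(G, w)` has a faithful circuit cover: a finite family of circuits, repetitions allowed,
such that every edge `e` lies in exactly `w e` members. -/
def HasFaithfulCover [DecidableEq V] [DecidableEq E] (G : MGraph V E) (w : E → ℕ) : Prop :=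
  ∃ (n : ℕ) (F : Fin n → Finset E), (∀ i, G.IsCircuit (F i)) ∧
    ∀ e, (univ.filter (fun i => e ∈ F i)).card = w e

/-- The graph `G - e0`. -/
def del (G : MGraph V E) (e0 : E) : MGraph V {e : E // e ≠ e0} where
  fst e := G.fst e.1
  snd e := G.snd e.1
  loopless e := G.loopless e.1

end MGraph

open MGraph

/-! ### The graph -/

def fstL : Fin 27 → Fin 18 :=
  ![0, 0, 0, 1, 1, 2, 2, 3, 3, 4, 4, 5, 5, 6, 7, 8, 8, 9, 9, 10, 11, 12, 12, 13, 13, 14, 16]
def sndL : Fin 27 → Fin 18 :=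
  ![1, 2, 3, 4, 5, 6, 8, 7, 9, 6, 10, 7, 11, 12, 13, 10, 14, 11, 15, 16, 17, 14, 16, 15, 17, 15,
    17]
def wt : Fin 27 → ℕ :=
  ![1, 1, 2, 1, 2, 2, 1, 1, 1, 1, 2, 1, 1, 1, 2, 1, 2, 1, 2, 1, 2, 1, 2, 1, 1, 1, 1]

def G : MGraph (Fin 18) (Fin 27) where
  fst := fstL
  snd := sndL
  loopless := by decide

lemma cubic : G.Cubic := by
  unfold MGraph.Cubic
  decide +kernel

lemma simple : G.Simple := by
  unfold MGraph.Simple
  decide +kernel

lemma wt12 : ∀ e, wt e = 1 ∨ wt e = 2 := by decide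

/-- parity at the vertices gives parity at all cuts -/
lemma eulerian_of {V E : Type} [Fintype E] [DecidableEq V] (G : MGraph V E) (w : E → ℕ)
    (h : ∀ v, Even (∑ e ∈ univ.filter (G.Inc v), w e)) : G.Eulerian w := by
  intro S
  classical
  have h1 : Even (∑ v ∈ S, ∑ e ∈ univ.filter (G.Inc v), w e) :=
    Finset.even_sum _ (fun v _ => h v)
  have h2 : ∑ v ∈ S, ∑ e ∈ univ.filter (G.Inc v), w e
      = ∑ e, (S.filter (fun v => G.Inc v e)).card * w e := by
    simp_rw [Finset.sum_filter]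
    rw [Finset.sum_comm]
    refine Finset.sum_congr rfl (fun e _ => ?_)
    rw [← Finset.sum_filter, Finset.sum_const, smul_eq_mul]
  have h3 : ∀ e, (S.filter (fun v => G.Inc v e)).card
      = (if G.fst e ∈ S then 1 else 0) + (if G.snd e ∈ S then 1 else 0) := by
    intro e
    have h4 : S.filter (fun v => G.Inc v e)
        = ({G.fst e, G.snd e} : Finset V).filter (fun v => v ∈ S) := by
      ext v
      rw [Finset.mem_filter, Finset.mem_filter, Finset.mem_insert, Finset.mem_singleton]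
      unfold MGraph.Inc
      constructor
      · rintro ⟨hv, h | h⟩
        · exact ⟨Or.inl h.symm, hv⟩
        · exact ⟨Or.inr h.symm, hv⟩
      · rintro ⟨h | h, hv⟩
        · exact ⟨hv, Or.inl h.symm⟩
        · exact ⟨hv, Or.inr h.symm⟩
    have hne := G.loopless e
    rw [h4]
    by_cases ha : G.fst e ∈ S <;> by_cases hb : G.snd e ∈ S <;>
      simp [Finset.filter_insert, Finset.filter_singleton, ha, hb, hne]
  rw [h2] at h1
  have h5 : ∑ e, (S.filter (fun v => G.Inc v e)).card * w e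
      = ∑ e ∈ univ.filter (fun e => ¬ (G.fst e ∈ S ↔ G.snd e ∈ S)), w e
        + 2 * ∑ e ∈ univ.filter (fun e => G.fst e ∈ S ∧ G.snd e ∈ S), w e := by
    rw [Finset.mul_sum, Finset.sum_filter, Finset.sum_filter, ← Finset.sum_add_distrib]
    refine Finset.sum_congr rfl (fun e _ => ?_)
    rw [h3 e]
    by_cases ha : G.fst e ∈ S <;> by_cases hb : G.snd e ∈ S <;> simp [ha, hb]
  rw [h5] at h1
  exact (Nat.even_add.mp h1).mpr (even_two_mul _)

lemma eulerian : G.Eulerian wt := by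
  apply eulerian_of
  decide +kernel

/-! ### Circuits from closed walks -/

lemma circuit_of {V E : Type} [DecidableEq V] (G : MGraph V E) (C : Finset E)
    (l : List V) (hne : C.Nonempty)
    (hdeg : ∀ v, (C.filter (G.Inc v)).card = 0 ∨ (C.filter (G.Inc v)).card = 2)
    (hch : l.IsChain (fun x y => ∃ e ∈ C, G.Inc x e ∧ G.Inc y e))
    (hmem : ∀ e ∈ C, G.fst e ∈ l ∧ G.snd e ∈ l) : G.IsCircuit C := by
  refine ⟨hne, hdeg, ?_⟩
  have hsymm : ∀ x y, (∃ e ∈ C, G.Inc x e ∧ G.Inc y e) → (∃ e ∈ C, G.Inc y e ∧ G.Inc x e) := by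
    rintro x y ⟨e, he, h1, h2⟩
    exact ⟨e, he, h2, h1⟩
  have key : ∀ l : List V, l.IsChain (fun x y => ∃ e ∈ C, G.Inc x e ∧ G.Inc y e) →
      ∀ u ∈ l, ∀ v ∈ l,
        Relation.ReflTransGen (fun x y => ∃ e ∈ C, G.Inc x e ∧ G.Inc y e) u v := by
    intro l
    induction l with
    | nil => intro _ u hu; exact absurd hu (List.not_mem_nil)
    | cons a t ih =>
      intro hc u hu v hv
      have hct := hc.tail
      rcases t with _ | ⟨b, t'⟩
      · simp only [List.mem_singleton] at hu hv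
        subst hu; subst hv; exact Relation.ReflTransGen.refl
      · have hab := (List.isChain_cons_cons.mp hc).1
        have ih' := ih hct
        rcases List.mem_cons.mp hu with rfl | hu'
        · rcases List.mem_cons.mp hv with rfl | hv'
          · exact Relation.ReflTransGen.refl
          · exact Relation.ReflTransGen.head hab (ih' b (by simp) v hv')
        · rcases List.mem_cons.mp hv with rfl | hv'
          · exact Relation.ReflTransGen.tail (ih' u hu' b (by simp)) (hsymm _ _ hab)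
          · exact ih' u hu' v hv'
  have hm : ∀ x, (∃ e ∈ C, G.Inc x e) → x ∈ l := by
    rintro x ⟨e, he, rfl | rfl⟩
    · exact (hmem e he).1
    · exact (hmem e he).2
  intro u v hu hv
  exact key l hch u (hm u hu) v (hm v hv)

/-- the edge `2 - 6` -/
def e0 : Fin 27 := 5

def C0 : Finset (Fin 27) := {0, 1, 3, 5, 9}

lemma c0 : G.IsCircuit C0 := by
  apply circuit_of G C0 [0, 1, 4, 6, 2]
  · decide
  · decide +kernel
  · decide +kernel
  · decide +kernel

/-- edge sets of the three circuits of the cover of `G - e0` -/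
def covSet : Fin 3 → Finset (Fin 27) := ![
  {0, 2, 4, 8, 11, 14, 18, 23},
  {1, 2, 3, 4, 6, 7, 10, 12, 14, 16, 19, 20, 21, 22, 24},
  {9, 10, 13, 15, 16, 17, 18, 20, 22, 25, 26}]

def covWalk : Fin 3 → List (Fin 18) := ![
  [0, 1, 5, 7, 13, 15, 9, 3],
  [0, 2, 8, 14, 12, 16, 10, 4, 1, 5, 11, 17, 13, 7, 3],
  [4, 6, 12, 16, 17, 11, 9, 15, 14, 8, 10]]

def cov (i : Fin 3) : Finset {e : Fin 27 // e ≠ e0} :=
  univ.filter (fun e => e.1 ∈ covSet i)

lemma cov_circuit (i : Fin 3) : (G.del e0).IsCircuit (cov i) := by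
  apply circuit_of (G.del e0) (cov i) (covWalk i)
  · revert i; decide +kernel
  · revert i; decide +kernel
  · revert i; decide +kernel
  · revert i; decide +kernel

lemma cov_count (e : {e : Fin 27 // e ≠ e0}) :
    (univ.filter (fun i => e ∈ cov i)).card = wt e.1 := by
  revert e; decide +kernel

lemma has_cover_del : (G.del e0).HasFaithfulCover (fun e => wt e.1) :=
  ⟨3, cov, cov_circuit, cov_count⟩

/-! ### No faithful cover of `(G, w)` -/

section none

variable {n : ℕ} (F : Fin n → Finset (Fin 27))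

/-- members of the family through the edge `e` -/
def St (e : Fin 27) : Finset (Fin n) := univ.filter (fun i => e ∈ F i)

variable {F}

lemma local_rule (hF : ∀ i, G.IsCircuit (F i)) (v : Fin 18) (a b c : Fin 27)
    (h : univ.filter (G.Inc v) = {a, b, c}) (hab : a ≠ b) (hac : a ≠ c) (hbc : b ≠ c) (i : Fin n) :
    (a ∈ F i ∧ b ∈ F i ∧ c ∉ F i) ∨ (a ∈ F i ∧ b ∉ F i ∧ c ∈ F i) ∨
      (a ∉ F i ∧ b ∈ F i ∧ c ∈ F i) ∨ (a ∉ F i ∧ b ∉ F i ∧ c ∉ F i) := by
  have h1 := (hF i).2.1 v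
  have h2 : (F i).filter (G.Inc v) = ({a, b, c} : Finset (Fin 27)).filter (fun e => e ∈ F i) := by
    rw [← h]; ext e; simp [and_comm]
  rw [h2] at h1
  by_cases ha : a ∈ F i <;> by_cases hb : b ∈ F i <;> by_cases hc : c ∈ F i <;>
    simp [Finset.filter_insert, Finset.filter_singleton, ha, hb, hc, hab, hac, hbc] at h1 ⊢

/-- at a vertex with edges of weight 1, 1, 2 -/
lemma vertex_rule (hF : ∀ i, G.IsCircuit (F i)) (v : Fin 18) (a b c : Fin 27)
    (h : univ.filter (G.Inc v) = {a, b, c}) (hab : a ≠ b) (hac : a ≠ c) (hbc : b ≠ c)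
    {x y : Fin n} (ha : St F a = {x}) (hb : St F b = {y}) (hc : (St F c).card = 2) :
    x ≠ y ∧ St F c = {x, y} := by
  have hA : ∀ i, a ∈ F i ↔ i = x := by
    intro i
    have := Finset.ext_iff.mp ha i
    simpa [St] using this
  have hB : ∀ i, b ∈ F i ↔ i = y := by
    intro i
    have := Finset.ext_iff.mp hb i
    simpa [St] using this
  have hsub : St F c ⊆ {x, y} := by
    intro i hi
    have hci : c ∈ F i := by simpa [St] using hi
    have hr := local_rule hF v a b c h hab hac hbc i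
    rw [hA, hB] at hr
    simp only [mem_insert, mem_singleton]
    tauto
  have hne : x ≠ y := by
    rintro rfl
    have h1 := Finset.card_le_card hsub
    rw [hc] at h1
    simp at h1
  refine ⟨hne, Finset.eq_of_subset_of_card_le hsub ?_⟩
  rw [hc, Finset.card_pair hne]

lemma pair_eq {α : Type} [DecidableEq α] {x y z t : α} (h : ({x, y} : Finset α) = {z, t})
    (hxy : x ≠ y) : (x = z ∧ y = t) ∨ (x = t ∧ y = z) := by
  have hx : x ∈ ({z, t} : Finset α) := by rw [← h]; simp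
  have hy : y ∈ ({z, t} : Finset α) := by rw [← h]; simp
  simp only [mem_insert, mem_singleton] at hx hy
  rcases hx with rfl | rfl <;> rcases hy with rfl | rfl
  · exact absurd rfl hxy
  · exact Or.inl ⟨rfl, rfl⟩
  · exact Or.inr ⟨rfl, rfl⟩
  · exact absurd rfl hxy

/-- at an edge `c = uv` of weight 2 whose ends have two further edges of weight 1 -/
lemma edge_rule (hF : ∀ i, G.IsCircuit (F i)) (hw : ∀ e, (St F e).card = wt e)
    (u v : Fin 18) (a b a' b' c : Fin 27)
    (hu : univ.filter (G.Inc u) = {a, b, c}) (hv : univ.filter (G.Inc v) = {a', b', c})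
    (h1 : a ≠ b ∧ a ≠ c ∧ b ≠ c ∧ a' ≠ b' ∧ a' ≠ c ∧ b' ≠ c) (hc : wt c = 2)
    {x y x' y' : Fin n} (ha : St F a = {x}) (hb : St F b = {y})
    (ha' : St F a' = {x'}) (hb' : St F b' = {y'}) :
    x ≠ y ∧ ((x = x' ∧ y = y') ∨ (x = y' ∧ y = x')) := by
  have hc2 : (St F c).card = 2 := by rw [hw, hc]
  obtain ⟨h2, h3⟩ := vertex_rule hF u a b c hu h1.1 h1.2.1 h1.2.2.1 ha hb hc2
  obtain ⟨h4, h5⟩ := vertex_rule hF v a' b' c hv h1.2.2.2.1 h1.2.2.2.2.1 h1.2.2.2.2.2 ha' hb' hc2
  exact ⟨h2, pair_eq (h3.symm.trans h5) h2⟩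

end none

lemma final {α : Type} {x0 x1 x3 x6 x7 x8 x9 x11 x12 x13 x15 x17 x19 x21 x23 x24 x25 x26 : α}
    (r2 : x0 ≠ x1 ∧ ((x0 = x7 ∧ x1 = x8) ∨ (x0 = x8 ∧ x1 = x7)))
    (r4 : x0 ≠ x3 ∧ ((x0 = x11 ∧ x3 = x12) ∨ (x0 = x12 ∧ x3 = x11)))
    (r5 : x1 ≠ x6 ∧ ((x1 = x9 ∧ x6 = x13) ∨ (x1 = x13 ∧ x6 = x9)))
    (r10 : x3 ≠ x9 ∧ ((x3 = x15 ∧ x9 = x19) ∨ (x3 = x19 ∧ x9 = x15)))
    (r14 : x7 ≠ x11 ∧ ((x7 = x23 ∧ x11 = x24) ∨ (x7 = x24 ∧ x11 = x23)))
    (r16 : x6 ≠ x15 ∧ ((x6 = x21 ∧ x15 = x25) ∨ (x6 = x25 ∧ x15 = x21)))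
    (r18 : x8 ≠ x17 ∧ ((x8 = x23 ∧ x17 = x25) ∨ (x8 = x25 ∧ x17 = x23)))
    (r20 : x12 ≠ x17 ∧ ((x12 = x24 ∧ x17 = x26) ∨ (x12 = x26 ∧ x17 = x24)))
    (r22 : x13 ≠ x21 ∧ ((x13 = x19 ∧ x21 = x26) ∨ (x13 = x26 ∧ x21 = x19))) : False := by
  grind (splits := 40)

lemma no_cover : ¬ G.HasFaithfulCover wt := by
  rintro ⟨n, F, hF, hw⟩
  have hw' : ∀ e, (St F e).card = wt e := hw
  have single : ∀ e, wt e = 1 → ∃ x, St F e = {x} := by
    intro e he
    have h := hw' e
    rw [he] at h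
    exact Finset.card_eq_one.mp h
  obtain ⟨x0, h0⟩ := single 0 rfl
  obtain ⟨x1, h1⟩ := single 1 rfl
  obtain ⟨x3, h3⟩ := single 3 rfl
  obtain ⟨x6, h6⟩ := single 6 rfl
  obtain ⟨x7, h7⟩ := single 7 rfl
  obtain ⟨x8, h8⟩ := single 8 rfl
  obtain ⟨x9, h9⟩ := single 9 rfl
  obtain ⟨x11, h11⟩ := single 11 rfl
  obtain ⟨x12, h12⟩ := single 12 rfl
  obtain ⟨x13, h13⟩ := single 13 rfl
  obtain ⟨x15, h15⟩ := single 15 rfl
  obtain ⟨x17, h17⟩ := single 17 rfl
  obtain ⟨x19, h19⟩ := single 19 rfl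
  obtain ⟨x21, h21⟩ := single 21 rfl
  obtain ⟨x23, h23⟩ := single 23 rfl
  obtain ⟨x24, h24⟩ := single 24 rfl
  obtain ⟨x25, h25⟩ := single 25 rfl
  obtain ⟨x26, h26⟩ := single 26 rfl
  -- weight-2 edges: 2 = 0-3, 4 = 1-5, 5 = 2-6, 10 = 4-10, 14 = 7-13, 16 = 8-14, 18 = 9-15,
  -- 20 = 11-17, 22 = 12-16
  have r2 := edge_rule hF hw' 0 3 0 1 7 8 2 (by decide +kernel) (by decide +kernel) (by decide) rfl h0 h1 h7 h8
  have r4 := edge_rule hF hw' 1 5 0 3 11 12 4 (by decide +kernel) (by decide +kernel) (by decide) rfl h0 h3 h11 h12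
  have r5 := edge_rule hF hw' 2 6 1 6 9 13 5 (by decide +kernel) (by decide +kernel) (by decide) rfl h1 h6 h9 h13
  have r10 := edge_rule hF hw' 4 10 3 9 15 19 10 (by decide +kernel) (by decide +kernel) (by decide) rfl h3 h9 h15 h19
  have r14 := edge_rule hF hw' 7 13 7 11 23 24 14 (by decide +kernel) (by decide +kernel) (by decide) rfl h7 h11 h23 h24
  have r16 := edge_rule hF hw' 8 14 6 15 21 25 16 (by decide +kernel) (by decide +kernel) (by decide) rfl h6 h15 h21 h25
  have r18 := edge_rule hF hw' 9 15 8 17 23 25 18 (by decide +kernel) (by decide +kernel) (by decide) rfl h8 h17 h23 h25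
  have r20 := edge_rule hF hw' 11 17 12 17 24 26 20 (by decide +kernel) (by decide +kernel) (by decide) rfl h12 h17 h24 h26
  have r22 := edge_rule hF hw' 12 16 13 21 19 26 22 (by decide +kernel) (by decide +kernel) (by decide) rfl h13 h21 h19 h26
  clear h0 h1 h3 h6 h7 h8 h9 h11 h12 h13 h15 h17 h19 h21 h23 h24 h25 h26 single hw' hw hF
  exact final r2 r4 r5 r10 r14 r16 r18 r20 r22

/-- The extension statement for 5-circuits with exactly one edge of weight 2 is false. -/
theorem result :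
    ∃ (G : MGraph (Fin 18) (Fin 27)) (w : Fin 27 → ℕ) (e0 : Fin 27) (C0 : Finset (Fin 27)),
      G.Cubic ∧ G.Simple ∧ (∀ e, w e = 1 ∨ w e = 2) ∧ G.Eulerian w ∧ w e0 = 2 ∧
      G.IsCircuit C0 ∧ e0 ∈ C0 ∧ C0.card = 5 ∧ (∀ e ∈ C0, w e = 2 ↔ e = e0) ∧
      (G.del e0).HasFaithfulCover (fun e => w e.1) ∧ ¬ G.HasFaithfulCover w :=
  ⟨G, wt, e0, C0, cubic, simple, wt12, eulerian, rfl, c0, by decide, by decide, by decide,
    has_cover_del, no_cover⟩

end Pool.Agent.Results.MP_6dc06d_co.EighteenVertices
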